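import Pool.Agent.N889.AO.Stm

/-!
# One-dimensional characteristic subquotients of the algebra of a graph which is not good
-/

set_option autoImplicit false
open Matrix Pool.Agent.N889.AO

namespace Pool.Agent.N75.AO

variable {n : ℕ}

/-- the vicinal preorder: the neighbours of `b` are neighbours of `a` or equal to `a` -/
def Le (G : SimpleGraph (Fin n)) (b a : Fin n) : Prop := ∀ x, G.Adj b x → x ≠ a → G.Adj a x

lemma Le.refl (G : SimpleGraph (Fin n)) (a : Fin n) : Le G a a := fun _ h _ => h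

lemma Le.trans {G : SimpleGraph (Fin n)} {b a d : Fin n} (h : Le G b a) (h' : Le G a d) :
    Le G b d := by
  intro x hbx hxd
  by_cases hxa : x = a
  · subst hxa
    by_cases hbd : b = d
    · subst hbd
      exact hbx
    · have h1 := h' b hbx.symm hbd
      have h2 := h d h1.symm (Ne.symm hxd)
      exact h2.symm
  · exact h' x (h x hbx hxa) hxd

lemma coh_of_le {G : SimpleGraph (Fin n)} {a b : Fin n} (h : Le G a b) (h' : Le G b a) :
    Coh G a b := fun x h1 h2 => ⟨fun h3 => h x h3 h2, fun h3 => h' x h3 h1⟩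

lemma le_of_coh {G : SimpleGraph (Fin n)} {a b : Fin n} (h : Coh G a b) : Le G b a :=
  fun x h1 h2 => (h x h2 h1.ne.symm).2 h1

variable (G : SimpleGraph (Fin n))

/-- the vectors without components outside `S` in the first part -/
def VS (S : Set (Fin n)) : Submodule ℚ (Fin n ⊕ G.edgeSet → ℚ) where
  carrier := {x | ∀ j, j ∉ S → x (Sum.inl j) = 0}
  add_mem' := fun {x y} hx hy j hj => by
    rw [Pi.add_apply, hx j hj, hy j hj, add_zero]
  zero_mem' := fun _ _ => rfl
  smul_mem' := fun c x hx j hj => by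
    rw [Pi.smul_apply, hx j hj, smul_zero]

lemma mem_VS {S : Set (Fin n)} {x : Fin n ⊕ G.edgeSet → ℚ} :
    x ∈ VS G S ↔ ∀ j, j ∉ S → x (Sum.inl j) = 0 := Iff.rfl

/-- closed downwards -/
def Dn (S : Set (Fin n)) : Prop := ∀ a ∈ S, ∀ b, Le G b a → b ∈ S

variable [Fintype G.edgeSet]

lemma charVS (hD : StmDerv) {S : Set (Fin n)} (hS : Dn G S) : CharSub (cG G) (VS G S) := by
  intro D hDer x hx j hj
  obtain ⟨h1, h2⟩ := hD n G D hDer
  rw [Matrix.mulVec, dotProduct, Fintype.sum_sum_type]
  have e1 : ∑ i : Fin n, D (Sum.inl j) (Sum.inl i) * x (Sum.inl i) = 0 := by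
    refine Finset.sum_eq_zero fun i _ => ?_
    by_cases h : D (Sum.inl j) (Sum.inl i) = 0
    · rw [h, zero_mul]
    · have h3 : Le G j i := h1 i j h
      have h4 : i ∉ S := fun hi => hj (hS i hi j h3)
      rw [hx i h4, mul_zero]
  have e2 : ∑ e : G.edgeSet, D (Sum.inl j) (Sum.inr e) * x (Sum.inr e) = 0 :=
    Finset.sum_eq_zero fun e _ => by rw [h2, zero_mul]
  rw [e1, e2, add_zero]

/-- the span of the products -/
def Z (S T : Set (Fin n)) : Submodule ℚ (Fin n ⊕ G.edgeSet → ℚ) :=
  Submodule.span ℚ {z | ∃ x ∈ VS G S, ∃ y ∈ VS G T, z = mulc (cG G) ℚ x y}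

lemma mem_Z {S T : Set (Fin n)} {x y : Fin n ⊕ G.edgeSet → ℚ} (hx : x ∈ VS G S)
    (hy : y ∈ VS G T) : mulc (cG G) ℚ x y ∈ Z G S T :=
  Submodule.subset_span ⟨x, hx, y, hy, rfl⟩

lemma charZ (hD : StmDerv) {S T : Set (Fin n)} (hS : Dn G S) (hT : Dn G T) :
    CharSub (cG G) (Z G S T) := by
  intro D hDer z hz
  unfold Z at hz
  induction hz using Submodule.span_induction with
  | mem z h =>
    obtain ⟨x, hx, y, hy, rfl⟩ := h
    rw [hDer x y]
    exact add_mem (mem_Z G (charVS G hD hS D hDer x hx) hy)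
      (mem_Z G hx (charVS G hD hT D hDer y hy))
  | zero => rw [Matrix.mulVec_zero]; exact zero_mem _
  | add x y _ _ hx hy => rw [Matrix.mulVec_add]; exact add_mem hx hy
  | smul c x _ hx => rw [Matrix.mulVec_smul]; exact Submodule.smul_mem _ _ hx

lemma anti (x y : Fin n ⊕ G.edgeSet → ℚ) :
    mulc (cG G) ℚ x y = - mulc (cG G) ℚ y x := by
  funext k
  rcases k with k | e
  · rw [Pi.neg_apply, mulc_cG_inl, mulc_cG_inl, neg_zero]
  · obtain ⟨i, j, h, hij, rfl⟩ := edge_cases G e
    rw [Pi.neg_apply, mulc_cG_inr G ℚ x y i j h hij, mulc_cG_inr G ℚ y x i j h hij]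
    ring

lemma self (x : Fin n ⊕ G.edgeSet → ℚ) : mulc (cG G) ℚ x x = 0 := by
  have h := anti G x x
  funext k
  have h1 := congrFun h k
  rw [Pi.neg_apply] at h1
  rw [Pi.zero_apply]
  linarith

/-- a unit vector -/
noncomputable def ee (a : Fin n) : Fin n ⊕ G.edgeSet → ℚ := by
  classical exact Pi.single (Sum.inl a) 1

lemma ee_self (a : Fin n) : ee G a (Sum.inl a) = 1 := by
  classical
  unfold ee
  exact Pi.single_eq_same _ _

lemma ee_ne {a j : Fin n} (h : j ≠ a) : ee G a (Sum.inl j) = 0 := by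
  classical
  unfold ee
  exact Pi.single_eq_of_ne (by simpa using h) _

lemma ee_mem {S : Set (Fin n)} {a : Fin n} (h : a ∈ S) : ee G a ∈ VS G S := by
  intro j hj
  exact ee_ne G (fun h1 => hj (h1 ▸ h))

lemma caseA (hD : StmDerv) (a : Fin n) (ha : ∀ b, b ≠ a → ¬ Coh G a b) :
    ∃ (U : Submodule ℚ (Fin n ⊕ G.edgeSet → ℚ)) (v : Fin n ⊕ G.edgeSet → ℚ), v ∉ U ∧
      CharSub (cG G) U ∧ CharSub (cG G) (U ⊔ Submodule.span ℚ {v}) := by
  let S₂ : Set (Fin n) := {b | Le G b a}
  let S₁ : Set (Fin n) := {b | Le G b a ∧ b ≠ a}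
  have h2 : Dn G S₂ := fun b hb d hd => Le.trans hd hb
  have h1 : Dn G S₁ := by
    rintro b ⟨hb, hba⟩ d hd
    refine ⟨Le.trans hd hb, ?_⟩
    rintro rfl
    exact ha b hba (coh_of_le hd hb)
  refine ⟨VS G S₁, ee G a, ?_, charVS G hD h1, ?_⟩
  · intro h
    have h3 := h a (fun h => h.2 rfl)
    rw [ee_self] at h3
    exact one_ne_zero h3
  · have heq : VS G S₁ ⊔ Submodule.span ℚ {ee G a} = VS G S₂ := by
      apply le_antisymm
      · refine sup_le ?_ ?_
        · intro x hx j hj
          exact hx j (fun h => hj h.1)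
        · rw [Submodule.span_singleton_le_iff_mem]
          exact ee_mem G (Le.refl G a)
      · intro x hx
        have h3 : x = (x - x (Sum.inl a) • ee G a) + x (Sum.inl a) • ee G a := by abel
        rw [h3]
        refine Submodule.add_mem_sup ?_ (Submodule.smul_mem _ _ (Submodule.mem_span_singleton_self _))
        intro j hj
        rw [Pi.sub_apply, Pi.smul_apply, smul_eq_mul]
        by_cases hja : j = a
        · subst hja
          rw [ee_self, mul_one, sub_self]
        · rw [ee_ne G hja, mul_zero, sub_zero]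
          exact hx j (fun h => hj ⟨h, hja⟩)
    rw [heq]
    exact charVS G hD h2

lemma caseB (hD : StmDerv) (a b : Fin n) (hab : G.Adj a b) (hlt : a < b) (hc : Coh G a b)
    (hd : ∀ d, d ≠ a → d ≠ b → ¬ Coh G a d) :
    ∃ (U : Submodule ℚ (Fin n ⊕ G.edgeSet → ℚ)) (v : Fin n ⊕ G.edgeSet → ℚ), v ∉ U ∧
      CharSub (cG G) U ∧ CharSub (cG G) (U ⊔ Submodule.span ℚ {v}) := by
  let S₂ : Set (Fin n) := {d | Le G d a}
  let S₁ : Set (Fin n) := {d | Le G d a ∧ d ≠ a ∧ d ≠ b}
  have ha2 : a ∈ S₂ := Le.refl G a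
  have hb2 : b ∈ S₂ := le_of_coh hc
  have h2 : Dn G S₂ := fun d hd d' hd' => Le.trans hd' hd
  have h1 : Dn G S₁ := by
    rintro d ⟨h3, h4, h5⟩ d' hd'
    refine ⟨Le.trans hd' h3, ?_, ?_⟩
    · rintro rfl
      exact hd d h4 h5 (coh_of_le hd' h3)
    · rintro rfl
      exact hd d h4 h5 (coh_of_le (Le.trans (le_of_coh hc.symm) hd') h3)
  have hab' : a ≠ b := hab.ne
  refine ⟨Z G S₂ S₁, mulc (cG G) ℚ (ee G a) (ee G b), ?_, charZ G hD h2 h1, ?_⟩
  · intro h
    have hz : ∀ z ∈ Z G S₂ S₁, z (Sum.inr ⟨s(a, b), G.mem_edgeSet.mpr hab⟩) = 0 := by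
      intro z hz
      unfold Z at hz
      induction hz using Submodule.span_induction with
      | mem z h =>
        obtain ⟨x, hx, y, hy, rfl⟩ := h
        rw [mulc_cG_inr G ℚ x y a b hab hlt, hy b (fun h => h.2.2 rfl), hy a (fun h => h.2.1 rfl)]
        ring
      | zero => rfl
      | add x y _ _ hx hy => rw [Pi.add_apply, hx, hy, add_zero]
      | smul c x _ hx => rw [Pi.smul_apply, hx, smul_zero]
    have h3 := hz _ h
    rw [mulc_cG_inr G ℚ _ _ a b hab hlt, ee_self, ee_self, ee_ne G hab', ee_ne G hab'.symm] at h3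
    norm_num at h3
  · have heq : Z G S₂ S₁ ⊔ Submodule.span ℚ {mulc (cG G) ℚ (ee G a) (ee G b)} = Z G S₂ S₂ := by
      apply le_antisymm
      · refine sup_le ?_ ?_
        · refine Submodule.span_mono ?_
          rintro z ⟨x, hx, y, hy, rfl⟩
          exact ⟨x, hx, y, fun j hj => hy j (fun h => hj h.1), rfl⟩
        · rw [Submodule.span_singleton_le_iff_mem]
          exact mem_Z G (ee_mem G ha2) (ee_mem G hb2)
      · refine Submodule.span_le.2 ?_
        rintro z ⟨x, hx, y, hy, rfl⟩
        rw [SetLike.mem_coe]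
        set W := Z G S₂ S₁ ⊔ Submodule.span ℚ {mulc (cG G) ℚ (ee G a) (ee G b)} with hW
        have hv : mulc (cG G) ℚ (ee G a) (ee G b) ∈ W :=
          (le_sup_right : _ ≤ W) (Submodule.mem_span_singleton_self _)
        have hv' : mulc (cG G) ℚ (ee G b) (ee G a) ∈ W := by
          rw [anti]
          exact neg_mem hv
        have hZW : Z G S₂ S₁ ≤ W := le_sup_left
        have hsplit : ∀ x : Fin n ⊕ G.edgeSet → ℚ, x ∈ VS G S₂ → ∃ x₁ ∈ VS G S₁,
            ∃ α β : ℚ, x = x₁ + (α • ee G a + β • ee G b) := by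
          intro x hx
          refine ⟨x - (x (Sum.inl a) • ee G a + x (Sum.inl b) • ee G b), ?_, x (Sum.inl a),
            x (Sum.inl b), by abel⟩
          intro j hj
          rw [Pi.sub_apply, Pi.add_apply, Pi.smul_apply, Pi.smul_apply, smul_eq_mul, smul_eq_mul]
          by_cases hja : j = a
          · subst hja
            rw [ee_self, ee_ne G hab']
            ring
          · by_cases hjb : j = b
            · subst hjb
              rw [ee_self, ee_ne G hja]
              ring
            · rw [ee_ne G hja, ee_ne G hjb, hx j (fun h => hj ⟨h, hja, hjb⟩)]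
              ring
        have hxe : ∀ d, d = a ∨ d = b → mulc (cG G) ℚ x (ee G d) ∈ W := by
          intro d hd'
          have hd2 : d ∈ S₂ := by
            rcases hd' with rfl | rfl
            · exact ha2
            · exact hb2
          obtain ⟨x₁, hx₁, α, β, hx'⟩ := hsplit x hx
          rw [hx', mulc_add_left, mulc_add_left, mulc_smul_left, mulc_smul_left]
          refine add_mem ?_ (add_mem (Submodule.smul_mem _ _ ?_) (Submodule.smul_mem _ _ ?_))
          · rw [anti]
            exact neg_mem (hZW (mem_Z G (ee_mem G hd2) hx₁))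
          · rcases hd' with rfl | rfl
            · rw [self]
              exact zero_mem _
            · exact hv
          · rcases hd' with rfl | rfl
            · exact hv'
            · rw [self]
              exact zero_mem _
        obtain ⟨y₁, hy₁, α, β, hy'⟩ := hsplit y hy
        rw [hy', mulc_add_right, mulc_add_right, mulc_smul_right, mulc_smul_right]
        exact add_mem (hZW (mem_Z G hx hy₁)) (add_mem
          (Submodule.smul_mem _ _ (hxe a (Or.inl rfl))) (Submodule.smul_mem _ _ (hxe b (Or.inr rfl))))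
    rw [heq]
    exact charZ G hD h2 h2

/-- SUBQ -/
theorem stmSubq : StmDerv → StmSubq := by
  intro hD n G _ hG
  unfold Good at hG
  rw [not_and_or] at hG
  rcases hG with h | h
  · push Not at h
    obtain ⟨a, ha⟩ := h
    exact caseA G hD a ha
  · push Not at h
    obtain ⟨a, b, hab, hc, hd⟩ := h
    rcases lt_or_gt_of_ne hab.ne with hlt | hlt
    · exact caseB G hD a b hab hlt hc hd
    · exact caseB G hD b a hab.symm hlt hc.symm
        (fun d h1 h2 h3 => hd d h2 h1 (hc.trans h3))

end Pool.Agent.N75.AO
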